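import Mathlib

namespace Pool.Agent.Results.MP_c5a801_co.Layers
open Classical

/-- A rotor mechanism: at each vertex `v`, `m v` is the successor map of a cyclic ordering of
the neighbours of `v` (a bijection of the neighbour set with a single orbit). -/
def IsMechanism {V : Type} (G : SimpleGraph V) (m : V → V → V) : Prop :=
  ∀ v, Set.BijOn (m v) (G.neighborSet v) (G.neighborSet v) ∧
    ∀ u w, G.Adj v u → G.Adj v w → ∃ n, (m v)^[n] u = w

/-- The rotor walk: the rotor at the current vertex is advanced, then the particle follows it. -/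
noncomputable def walk {V : Type} (m : V → V → V) (x0 : V) (r0 : V → V) : ℕ → V × (V → V)
  | 0 => (x0, r0)
  | t + 1 =>
    (m (walk m x0 r0 t).1 ((walk m x0 r0 t).2 (walk m x0 r0 t).1),
      Function.update (walk m x0 r0 t).2 (walk m x0 r0 t).1
        (m (walk m x0 r0 t).1 ((walk m x0 r0 t).2 (walk m x0 r0 t).1)))

lemma walk_ne {V : Type} (m : V → V → V) (x0 : V) (r0 : V → V) (t : ℕ) (v : V)
    (h : v ≠ (walk m x0 r0 t).1) : (walk m x0 r0 (t + 1)).2 v = (walk m x0 r0 t).2 v := by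
  rw [walk]; exact Function.update_of_ne h _ _

section abstract
variable {V : Type} (l : V → ℕ) (x : ℕ → V)

noncomputable def oc (v : V) : ℕ → ℕ
  | 0 => 0
  | t + 1 => oc v t + if x t = v then (if l (x (t + 1)) = l (x t) + 1 then 1 else 0) else 0

noncomputable def ic (v : V) : ℕ → ℕ
  | 0 => 0
  | t + 1 => ic v t + if x t = v then (if l (x (t + 1)) = l (x t) + 1 then 0 else 1) else 0

lemma finite_visits (L : ℕ → Finset V) (hL : ∀ n v, v ∈ L n ↔ l v = n)
    (hc : ∀ n, (L n).card ≤ 2 ^ n) (φ : ℕ → V → ℕ) (hφ : ∀ v, φ 0 v ≤ 4)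
    (hs : ∀ t v, x t ≠ v → φ (t + 1) v = φ t v)
    (hx : ∀ t, (l (x (t + 1)) = l (x t) + 1 ∧ φ t (x t) ≤ φ (t + 1) (x t) + 1 ∧
        φ (t + 1) (x t) ≤ φ t (x t) + 1) ∨
      (l (x (t + 1)) + 1 = l (x t) ∧ φ (t + 1) (x t) + 4 ≤ φ t (x t))) (y : V) :
    {t | x t = y}.Finite := by
  have hA : ∀ v t, 4 * ic l x v t + φ t v ≤ oc l x v t + φ 0 v := by
    intro v t
    induction t with
    | zero => simp [ic, oc]
    | succ t ih =>
      rw [ic, oc]
      by_cases h : x t = v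
      · subst h
        rcases hx t with h1 | h1
        · simp only [if_true, if_pos h1.1]; omega
        · simp only [if_true, if_neg (show ¬ l (x (t + 1)) = l (x t) + 1 by omega)]; omega
      · rw [if_neg h, if_neg h, hs t v h]; omega
  have hB : ∀ n t, ∑ v ∈ L n, oc l x v t + (if n < l (x 0) then 1 else 0) =
      ∑ v ∈ L (n + 1), ic l x v t + (if n < l (x t) then 1 else 0) := by
    intro n t
    induction t with
    | zero => simp [ic, oc]
    | succ t ih =>
      simp only [ic, oc, Finset.sum_add_distrib, Finset.sum_ite_eq, hL]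
      rcases hx t with h1 | h1 <;> split_ifs at ih ⊢ <;> omega
  have hC : ∀ n t, ∑ v ∈ L n, oc l x v t ≤ t := by
    intro n t
    induction t with
    | zero => simp [oc]
    | succ t ih =>
      simp only [oc, Finset.sum_add_distrib, Finset.sum_ite_eq, hL]
      split_ifs <;> omega
  by_contra hinf
  have hinf : {t | x t = y}.Infinite := hinf
  have hmono : Monotone fun t => oc l x y t + ic l x y t :=
    monotone_nat_of_le_succ fun t => by simp only [oc, ic]; omega
  have hK : ∀ K, ∃ T, x T = y ∧ K ≤ oc l x y T + ic l x y T := by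
    intro K
    induction K with
    | zero => obtain ⟨T, hT⟩ := hinf.nonempty; exact ⟨T, hT, by omega⟩
    | succ K ih =>
      obtain ⟨T, h1, h2⟩ := ih
      obtain ⟨T', h3, h4⟩ := hinf.exists_gt T
      refine ⟨T', h3, ?_⟩
      have h5 := hmono (show T + 1 ≤ T' by omega)
      simp only [oc, ic, if_pos h1] at h5
      split_ifs at h5 <;> omega
  obtain ⟨T, hT, hK⟩ := hK (2 * 2 ^ (l y + 2) + 4)
  have hS : ∀ n, l y ≤ n → 2 ^ (n + 2) ≤ ∑ v ∈ L n, oc l x v T := by
    intro n hn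
    induction n, hn using Nat.le_induction with
    | base =>
      have h1 := hA y T
      have h2 := hφ y
      have h3 : oc l x y T ≤ ∑ v ∈ L (l y), oc l x v T :=
        Finset.single_le_sum (f := fun v => oc l x v T) (fun _ _ => Nat.zero_le _) ((hL _ _).2 rfl)
      omega
    | succ n hn ih =>
      have h1 := hB n T
      rw [hT, if_neg (show ¬ n < l y by omega)] at h1
      have h2 : ∑ v ∈ L (n + 1), 4 * ic l x v T ≤ ∑ v ∈ L (n + 1), (oc l x v T + 4) :=
        Finset.sum_le_sum fun v _ => by have := hA v T; have := hφ v; omega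
      rw [← Finset.mul_sum, Finset.sum_add_distrib, Finset.sum_const, smul_eq_mul] at h2
      have h3 := hc (n + 1)
      have h4 : 2 ^ (n + 2) = 2 * 2 ^ (n + 1) := by ring
      have h5 : 2 ^ (n + 1 + 2) = 4 * 2 ^ (n + 1) := by ring
      omega
  have h1 := hS (l y + T) (by omega)
  have h2 := hC (l y + T) T
  have h3 : l y + T + 2 < 2 ^ (l y + T + 2) := Nat.lt_two_pow_self
  omega

end abstract

abbrev V := {p : ℕ × ℕ // p.2 < 2 ^ p.1}

def G : SimpleGraph V where
  Adj u v := u.1.1 + 1 = v.1.1 ∨ v.1.1 + 1 = u.1.1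
  symm := ⟨fun _ _ h => h.symm⟩
  loopless := ⟨fun _ h => by omega⟩

def mm (n : ℕ) (p : ℕ × ℕ) : ℕ × ℕ :=
  if n = 0 then (1, 1 - p.2) else if p.1 + 1 = n then (n + 1, 4 * p.2)
  else if p.2 % 4 = 3 then (n - 1, (p.2 / 4 + 1) % 2 ^ (n - 1)) else (n + 1, p.2 + 1)

def m (v u : V) : V := if h : (mm v.1.1 u.1).2 < 2 ^ (mm v.1.1 u.1).1 then ⟨_, h⟩ else u

lemma m_val {v u : V} (h : G.Adj v u) : (m v u).1 = mm v.1.1 u.1 := by
  obtain ⟨⟨n, a⟩, hv⟩ := v
  obtain ⟨⟨k, c⟩, hu⟩ := u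
  have h' : n + 1 = k ∨ k + 1 = n := h
  have hu' : c < 2 ^ k := hu
  unfold m
  rw [dif_pos]
  show (mm n (k, c)).2 < 2 ^ (mm n (k, c)).1
  unfold mm
  split_ifs with h1 h2 h3
  · show 1 - c < 2 ^ 1
    omega
  · show 4 * c < 2 ^ (n + 1)
    have : k + 1 = n := h2
    subst this
    have : 2 ^ (k + 1 + 1) = 4 * 2 ^ k := by ring
    omega
  · exact Nat.mod_lt _ (by positivity)
  · show c + 1 < 2 ^ (n + 1)
    have h4 : ¬ k + 1 = n := h2
    have h5 : ¬ c % 4 = 3 := h3
    obtain ⟨j, rfl⟩ : ∃ j, n = j + 1 := ⟨n - 1, by omega⟩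
    have : k = j + 1 + 1 := by omega
    subst this
    have : 2 ^ (j + 1 + 1) = 4 * 2 ^ j := by ring
    omega

lemma m_adj {v u : V} (h : G.Adj v u) : G.Adj v (m v u) := by
  show v.1.1 + 1 = (m v u).1.1 ∨ (m v u).1.1 + 1 = v.1.1
  rw [m_val h]
  unfold mm
  split_ifs <;> dsimp only <;> omega

/-- position of a neighbour in the cyclic order. -/
def pos (v u : V) : ℕ :=
  if v.1.1 = 0 then u.1.2 else if u.1.1 + 1 = v.1.1 then 5 * u.1.2
  else 5 * (u.1.2 / 4) + u.1.2 % 4 + 1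

def dg (v : V) : ℕ := if v.1.1 = 0 then 2 else 5 * 2 ^ (v.1.1 - 1)

lemma pos_lt {v u : V} (h : G.Adj v u) : pos v u < dg v := by
  obtain ⟨⟨n, a⟩, hv⟩ := v
  obtain ⟨⟨k, c⟩, hu⟩ := u
  have h' : n + 1 = k ∨ k + 1 = n := h
  have hu' : c < 2 ^ k := hu
  simp only [pos, dg]
  split_ifs with h1 h2
  · have : k = 1 := by omega
    subst this; omega
  · subst h2; simp only [Nat.add_sub_cancel]; omega
  · obtain ⟨j, rfl⟩ : ∃ j, n = j + 1 := ⟨n - 1, by omega⟩
    have : k = j + 1 + 1 := by omega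
    subst this
    have : 2 ^ (j + 1 + 1) = 4 * 2 ^ j := by ring
    simp only [Nat.add_sub_cancel]; omega

lemma pos_inj {v u w : V} (h : G.Adj v u) (h2 : G.Adj v w) (he : pos v u = pos v w) : u = w := by
  obtain ⟨⟨n, a⟩, hv⟩ := v
  obtain ⟨⟨k, c⟩, hu⟩ := u
  obtain ⟨⟨k', c'⟩, hw⟩ := w
  have h' : n + 1 = k ∨ k + 1 = n := h
  have h2' : n + 1 = k' ∨ k' + 1 = n := h2
  simp only [pos] at he
  simp only [Subtype.mk.injEq, Prod.mk.injEq]
  split_ifs at he <;> omega

lemma pos_m {v u : V} (h : G.Adj v u) : pos v (m v u) = (pos v u + 1) % dg v := by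
  have h0 := pos_lt h
  unfold pos at h0 ⊢
  rw [m_val h]
  obtain ⟨⟨n, a⟩, hv⟩ := v
  obtain ⟨⟨k, c⟩, hu⟩ := u
  have h' : n + 1 = k ∨ k + 1 = n := h
  simp only [dg, mm] at h0 ⊢
  by_cases h1 : n = 0
  · simp only [h1, if_true] at h0 ⊢; omega
  obtain ⟨j, rfl⟩ : ∃ j, n = j + 1 := ⟨n - 1, by omega⟩
  simp only [if_neg h1, Nat.add_sub_cancel] at h0 ⊢
  by_cases h2 : k + 1 = j + 1
  · simp only [if_pos h2] at h0 ⊢
    rw [if_neg (by omega), Nat.mod_eq_of_lt (show 5 * c + 1 < 5 * 2 ^ j by omega)]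
    omega
  simp only [if_neg h2] at h0 ⊢
  by_cases h3 : c % 4 = 3
  · simp only [if_pos h3, if_true]
    rw [h3, ← Nat.mul_mod_mul_left]
    congr 1
  · simp only [if_neg h3]
    rw [if_neg (by omega), Nat.mod_eq_of_lt
      (show 5 * (c / 4) + c % 4 + 1 + 1 < 5 * 2 ^ j by omega)]
    omega

lemma iter_m {v u : V} (h : G.Adj v u) (n : ℕ) :
    G.Adj v ((m v)^[n] u) ∧ pos v ((m v)^[n] u) = (pos v u + n) % dg v := by
  induction n with
  | zero => exact ⟨h, (Nat.mod_eq_of_lt (pos_lt h)).symm⟩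
  | succ n ih =>
    rw [Function.iterate_succ_apply']
    refine ⟨m_adj ih.1, ?_⟩
    rw [pos_m ih.1, ih.2, Nat.mod_add_mod, Nat.add_assoc]

lemma iter_reach {v u w : V} (h : G.Adj v u) (h2 : G.Adj v w) : ∃ n, (m v)^[n + 1] u = w := by
  have h3 := pos_lt h
  have h4 := pos_lt h2
  refine ⟨dg v - pos v u + pos v w - 1, pos_inj (iter_m h _).1 h2 ?_⟩
  rw [(iter_m h _).2, show pos v u + (dg v - pos v u + pos v w - 1 + 1) = dg v + pos v w by omega,
    Nat.add_mod_left, Nat.mod_eq_of_lt h4]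

def L (n : ℕ) : Finset V := (({n} : Finset ℕ) ×ˢ Finset.range (2 ^ n)).subtype _

lemma mem_L (n : ℕ) (v : V) : v ∈ L n ↔ v.1.1 = n := by
  simp only [L, Finset.mem_subtype, Finset.mem_product, Finset.mem_singleton, Finset.mem_range]
  exact ⟨fun h => h.1, fun h => ⟨h, h ▸ v.2⟩⟩

lemma card_L (n : ℕ) : (L n).card ≤ 2 ^ n := by
  rw [L, Finset.card_subtype]
  refine (Finset.card_filter_le _ _).trans ?_
  simp

lemma nb_finite (v : V) : (G.neighborSet v).Finite := by
  refine (L (v.1.1 + 1) ∪ L (v.1.1 - 1)).finite_toSet.subset fun u hu => ?_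
  have h : v.1.1 + 1 = u.1.1 ∨ u.1.1 + 1 = v.1.1 := hu
  simp only [Finset.coe_union, Set.mem_union, Finset.mem_coe, mem_L]
  omega

lemma conn : G.Connected := by
  have h0 : ∀ n (v : V), v.1.1 = n → G.Reachable ⟨(0, 0), by simp⟩ v := by
    intro n
    induction n with
    | zero =>
      rintro ⟨⟨k, c⟩, hv⟩ h
      have h1 : k = 0 := h
      subst h1
      have h2 : c = 0 := by simpa using hv
      subst h2
      rfl
    | succ n ih =>
      intro v h
      exact (ih ⟨(n, 0), by simp⟩ rfl).trans (SimpleGraph.Adj.reachable (Or.inl h.symm))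
  have : Nonempty V := ⟨⟨(0, 0), by simp⟩⟩
  exact ⟨fun u v => (h0 _ u rfl).symm.trans (h0 _ v rfl)⟩

def ph (v u : V) : ℕ := if v.1.1 = 0 then 0 else if u.1.1 + 1 = v.1.1 then 0 else u.1.2 % 4 + 1

lemma ph_m {v u : V} (h : G.Adj v u) :
    ((m v u).1.1 = v.1.1 + 1 ∧ ph v u ≤ ph v (m v u) + 1 ∧ ph v (m v u) ≤ ph v u + 1) ∨
      ((m v u).1.1 + 1 = v.1.1 ∧ ph v (m v u) + 4 ≤ ph v u) := by
  unfold ph
  rw [m_val h]
  have h' : v.1.1 + 1 = u.1.1 ∨ u.1.1 + 1 = v.1.1 := h
  unfold mm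
  split_ifs <;> dsimp only at * <;> omega

theorem result : ∃ (W : Type) (H : SimpleGraph W) (mech : W → W → W),
    Infinite W ∧ H.Connected ∧ (∀ v, (H.neighborSet v).Finite) ∧ IsMechanism H mech ∧
      ∀ r0 : W → W, (∀ v, H.Adj v (r0 v)) → ∀ x0 y : W,
        {t | (walk mech x0 r0 t).1 = y}.Finite := by
  refine ⟨V, G, m, Infinite.of_injective (fun n : ℕ => (⟨(n, 0), by simp⟩ : V))
    fun a b h => by simpa using h, conn, nb_finite, fun v => ⟨?_, fun u w h1 h2 => ?_⟩, ?_⟩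
  · have hm : Set.MapsTo (m v) (G.neighborSet v) (G.neighborSet v) := fun u hu => m_adj hu
    refine ((nb_finite v).surjOn_iff_bijOn_of_mapsTo hm).1 fun w hw => ?_
    obtain ⟨n, hn⟩ := iter_reach hw hw
    rw [Function.iterate_succ_apply'] at hn
    exact ⟨_, (iter_m hw n).1, hn⟩
  · obtain ⟨n, hn⟩ := iter_reach h1 h2
    exact ⟨_, hn⟩
  · intro r0 hr x0 y
    have hv : ∀ t v, G.Adj v ((walk m x0 r0 t).2 v) := by
      intro t
      induction t with
      | zero => exact hr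
      | succ t ih =>
        intro v
        by_cases h : v = (walk m x0 r0 t).1
        · rw [walk, h]; simp only [Function.update_self]; exact m_adj (ih _)
        · rw [walk_ne _ _ _ _ _ h]; exact ih v
    refine finite_visits (fun v => v.1.1) (fun t => (walk m x0 r0 t).1) L mem_L card_L
      (fun t v => ph v ((walk m x0 r0 t).2 v)) (fun v => ?_) (fun t v h => ?_) (fun t => ?_) y
    · unfold ph; split_ifs <;> omega
    · show ph v ((walk m x0 r0 (t + 1)).2 v) = _
      rw [walk_ne _ _ _ _ _ (Ne.symm h)]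
    · have := ph_m (hv t (walk m x0 r0 t).1)
      simp only [walk, Function.update_self]
      exact this

end Pool.Agent.Results.MP_c5a801_co.Layers
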